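import Pool.Agent.Run7.h676.NI.Iface

/-!
Project NI (helper676), piece STR: faithful action on a normal subgroup of class at most two.
-/

set_option autoImplicit false

open scoped commutatorElement

namespace Pool.Agent.Run7.h837.NI

open Pool.Agent.Run7.h676.NI

theorem remA {Γ : Type} [Group Γ] [Finite Γ] {p : ℕ} (hp : p.Prime) {L X Y : Subgroup Γ}
    (hYL : Y ≤ L) (hX : X.Normal) (hY : Y.Normal)
    (hC : ∀ x ∈ Y, (∀ y ∈ X, x * y = y * x) → x ∈ X) (hL : ¬ p ∣ Nat.card L) {v : Γ}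
    (hv : v ^ p = 1) (hvX : ∀ x ∈ X, v * x = x * v) : ∀ x ∈ Y, v * x = x * v := by
  intro x hx
  set c : Γ := x⁻¹ * (v * x * v⁻¹) with hc
  have hcY : c ∈ Y := Y.mul_mem (Y.inv_mem hx) (hY.conj_mem x hx v)
  have hcX : c ∈ X := by
    refine hC c hcY fun r hr => ?_
    have h1 : v * (x * r * x⁻¹) = x * r * x⁻¹ * v := hvX _ (hX.conj_mem r hr x)
    have h2 : v * r = r * v := hvX r hr
    have h3 : v⁻¹ * r = r * v⁻¹ := by
      rw [inv_mul_eq_iff_eq_mul, ← mul_assoc, h2, mul_assoc, mul_inv_cancel, mul_one]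
    have h4 : x⁻¹ * v * x * r = r * (x⁻¹ * v * x) := by
      calc x⁻¹ * v * x * r = x⁻¹ * (v * (x * r * x⁻¹)) * x := by group
        _ = x⁻¹ * (x * r * x⁻¹ * v) * x := by rw [h1]
        _ = r * (x⁻¹ * v * x) := by group
    calc c * r = x⁻¹ * v * x * (v⁻¹ * r) := by rw [hc]; group
      _ = x⁻¹ * v * x * (r * v⁻¹) := by rw [h3]
      _ = (x⁻¹ * v * x * r) * v⁻¹ := by group
      _ = r * (x⁻¹ * v * x) * v⁻¹ := by rw [h4]
      _ = r * c := by rw [hc]; group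
  have hvc : Commute c v := (hvX c hcX).symm
  have h5 : c * v = x⁻¹ * v * x⁻¹⁻¹ := by rw [hc]; group
  have h6 : c ^ p = 1 := by
    have h7 : (c * v) ^ p = c ^ p * v ^ p := hvc.mul_pow p
    rw [h5, conj_pow, hv, mul_one, inv_inv, inv_mul_cancel, mul_one] at h7
    exact h7.symm
  have h8 : orderOf c ∣ p := orderOf_dvd_of_pow_eq_one h6
  have h9 : orderOf c ∣ Nat.card L := Subgroup.orderOf_dvd_natCard L (hYL hcY)
  have h10 : Nat.Coprime p (Nat.card L) := (Nat.Prime.coprime_iff_not_dvd hp).2 hL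
  have h11 : orderOf c = 1 := Nat.eq_one_of_dvd_coprimes h10 h8 h9
  have h12 : c = 1 := orderOf_eq_one_iff.1 h11
  have h13 : v * x * v⁻¹ = x := by
    rw [hc, inv_mul_eq_one] at h12
    exact h12.symm
  rw [mul_inv_eq_iff_eq_mul] at h13
  exact h13

theorem t_STR (h1 : S_FIT) (h2 : S_CRIT) : S_STR := by
  intro Γ _ _ p L V hV hL hs hp hf
  obtain ⟨F, hF1, hF2, hF3, hF4⟩ := h1 Γ L hL hs
  obtain ⟨R, hR1, hR2, hR3, hR4⟩ := h2 Γ F hF2 hF3
  refine ⟨R, hR1.trans hF1, hR2, hR3, fun v hv hvR => ?_⟩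
  have hvp : v ^ p = 1 := hV.exp v hv
  have a := remA hV.prime (L := L) hF1 hR2 hF2 hR4 hp hvp hvR
  have b := remA hV.prime (L := L) (le_refl L) hF2 hL hF4 hp hvp a
  exact hf v hv b

end Pool.Agent.Run7.h837.NI
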