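import Pool.Agent.Run7.h676.NI.Iface

/-!
Project NI (helper676), piece TOP: the target from NIL, by the semidirect product.
-/

set_option autoImplicit false

open scoped commutatorElement

namespace Pool.Agent.Run7.h837.NI

open Pool.Agent.Run7.h676.NI SemidirectProduct

theorem conj_inl {G V : Type} [Group G] [CommGroup V] [MulDistribMulAction V G] (v : V) (g : G) :
    (inr v * inl g * (inr v)⁻¹ : G ⋊[MulDistribMulAction.toMulAut V G] V) = inl (v • g) := by
  have := inl_aut (φ := MulDistribMulAction.toMulAut V G) v g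
  rw [← map_inv, ← this]
  rfl

theorem t_TOP (h : S_NIL) : S_TOP := by
  intro p n hp G _ _ _ V _ _ _ hcard hexp hfix
  have : Fact p.Prime := ⟨hp⟩
  have hVp : IsPGroup p V := IsPGroup.of_card hcard
  have hcG : Nat.card G ≡ 1 [MOD p] := by
    have h1 := hVp.card_modEq_card_fixedPoints G
    have h2 : MulAction.fixedPoints V G = {1} := by
      ext g
      rw [MulAction.mem_fixedPoints, Set.mem_singleton_iff]
      constructor
      · exact hfix g
      · rintro rfl v
        exact smul_one v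
    rw [h2] at h1
    simpa using h1
  have hpG : ¬ p ∣ Nat.card G := by
    intro hd
    have h3 : Nat.card G ≡ 0 [MOD p] := (Nat.modEq_zero_iff_dvd).2 hd
    have h4 : (1 : ℕ) ≡ 0 [MOD p] := hcG.symm.trans h3
    exact hp.one_lt.ne' (Nat.dvd_one.1 ((Nat.modEq_zero_iff_dvd).1 h4))
  set φ := MulDistribMulAction.toMulAut V G with hφ
  have : Finite (G ⋊[φ] V) := Finite.of_equiv _ (equivProd (φ := φ)).symm
  have hinj : Function.Injective (inl : G →* G ⋊[φ] V) := inl_injective
  have hcfg : Cfg p ((inl : G →* G ⋊[φ] V).range) ((inr : V →* G ⋊[φ] V).range) := by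
    refine ⟨⟨hp, ?_, ?_⟩, ?_, ?_, ?_, ?_, ?_⟩
    · rintro _ ⟨v, rfl⟩ _ ⟨w, rfl⟩
      rw [← map_mul, ← map_mul, mul_comm]
    · rintro _ ⟨v, rfl⟩
      rw [← map_pow, hexp, map_one]
    · rw [range_inl_eq_ker_rightHom]
      infer_instance
    · exact Group.isSolvable_of_surjective (inl : G →* G ⋊[φ] V).rangeRestrict_surjective
    · have e : Nat.card ((inl : G →* G ⋊[φ] V).range) = Nat.card G :=
        (Nat.card_congr (MonoidHom.ofInjective hinj).toEquiv).symm
      rw [e]
      exact hpG
    · rintro _ ⟨g, rfl⟩ hg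
      have h5 : ∀ v : V, v • g = g := by
        intro v
        have h6 := hg (inr v) ⟨v, rfl⟩
        have h7 := conj_inl v g
        rw [h6, mul_assoc, mul_inv_cancel, mul_one] at h7
        exact (hinj h7).symm
      rw [hfix g h5, map_one]
    · intro γ
      exact ⟨inl γ.left, ⟨_, rfl⟩, inr γ.right, ⟨_, rfl⟩, (inl_left_mul_inr_right γ).symm⟩
  set I : Subgroup G := ⨅ (v : V) (_ : v ≠ 1),
          Subgroup.closure {x : G | ∃ g : G, x = g⁻¹ * (v • g)} with hI
  have hH := h (G ⋊[φ] V) p (inl : G →* G ⋊[φ] V).range (inr : V →* G ⋊[φ] V).range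
    (I.map (inl : G →* G ⋊[φ] V)) hcfg (by
      rintro _ ⟨g, _, rfl⟩
      exact ⟨g, rfl⟩) (by
      rintro _ ⟨v, rfl⟩ hv1
      have hv2 : v ≠ 1 := by
        rintro rfl
        exact hv1 (map_one _)
      have h8 : I ≤ Subgroup.closure {x : G | ∃ g : G, x = g⁻¹ * (v • g)} :=
        iInf₂_le v hv2
      refine (Subgroup.map_mono h8).trans ?_
      rw [MonoidHom.map_closure]
      refine Subgroup.closure_mono ?_
      rintro _ ⟨x, ⟨g, rfl⟩, rfl⟩
      refine ⟨inl g, ⟨g, rfl⟩, ?_⟩
      rw [map_mul, map_inv]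
      congr 1
      exact (conj_inl v g).symm)
  exact Group.nilpotent_of_mulEquiv (I.equivMapOfInjective (inl : G →* G ⋊[φ] V) hinj).symm

end Pool.Agent.Run7.h837.NI
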